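import Pool.Agent.Helper6.EC_B.Goals

/-!
# MP_ecc237_nt, Part B, packet T3: the polynomial identity
-/

open MeasureTheory Filter Topology Set

noncomputable section

namespace EC237.PB.PkT3

theorem int_pow {ρ : Measure ℝ} (h : Integrable (fun a => Real.exp (|a| / 2)) ρ) (k : ℕ) :
    Integrable (fun a : ℝ => a ^ k) ρ := by
  refine (h.const_mul (2 ^ k * (k.factorial : ℝ))).mono'
    (continuous_pow k).aestronglyMeasurable (Eventually.of_forall fun a => ?_)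
  have h1 := Real.pow_div_factorial_le_exp (|a| / 2) (by positivity) k
  have h2 : (0:ℝ) < (k.factorial : ℝ) := by exact_mod_cast k.factorial_pos
  rw [div_le_iff₀ h2, div_pow, div_le_iff₀ (by positivity)] at h1
  rw [Real.norm_eq_abs, abs_pow]
  nlinarith [h1]

/-- The value of the inner integral. -/
def gg (c Y : ℝ) (p : ℝ × ℝ) : ℝ :=
  (Y ^ 4 - 2 * c * Y ^ 2 + c ^ 2) * (p.1 ^ 1 * p.2 ^ 0) +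
  (Y ^ 4 - 2 * c * Y ^ 2 + c ^ 2) * (p.1 ^ 0 * p.2 ^ 1) +
  (-(2 * c / 3)) * (p.1 ^ 3 * p.2 ^ 0) + (-(2 * c / 3)) * (p.1 ^ 0 * p.2 ^ 3) +
  (1 / 30) * (p.1 ^ 5 * p.2 ^ 0) + (1 / 30) * (p.1 ^ 0 * p.2 ^ 5) +
  (2 * Y ^ 2) * (p.1 ^ 1 * p.2 ^ 2) + (2 * Y ^ 2) * (p.1 ^ 2 * p.2 ^ 1) +
  (-(1 / 6)) * (p.1 ^ 1 * p.2 ^ 4) + (-(1 / 6)) * (p.1 ^ 4 * p.2 ^ 1) +
  (1 / 3) * (p.1 ^ 2 * p.2 ^ 3) + (1 / 3) * (p.1 ^ 3 * p.2 ^ 2)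

theorem FY_eq (c Y : ℝ) (p : ℝ × ℝ) : FY (fun z => z ^ 2 - c) Y p = gg c Y p := by
  obtain ⟨a, b⟩ := p
  unfold FY
  have hd : ∀ y : ℝ, HasDerivAt (fun y : ℝ => y ^ 5 / 5 - (a + b) * y ^ 4 / 2 +
      ((a ^ 2 - c) + (b ^ 2 - c) + 4 * a * b) * y ^ 3 / 3 -
      (a * (b ^ 2 - c) + b * (a ^ 2 - c)) * y ^ 2 + ((a ^ 2 - c) * (b ^ 2 - c)) * y)
      (((y - a) ^ 2 - c) * ((y - b) ^ 2 - c)) y := by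
    intro y
    have h := (((((hasDerivAt_pow 5 y).div_const 5).sub
      (((hasDerivAt_pow 4 y).const_mul (a + b)).div_const 2)).add
      (((hasDerivAt_pow 3 y).const_mul ((a ^ 2 - c) + (b ^ 2 - c) + 4 * a * b)).div_const 3)).sub
      ((hasDerivAt_pow 2 y).const_mul (a * (b ^ 2 - c) + b * (a ^ 2 - c)))).add
      ((hasDerivAt_id y).const_mul ((a ^ 2 - c) * (b ^ 2 - c)))
    refine HasDerivAt.congr_deriv (f' := _) h ?_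
    push_cast
    ring
  have hI : ∀ u v : ℝ, IntervalIntegrable
      (fun y : ℝ => ((y - a) ^ 2 - c) * ((y - b) ^ 2 - c)) volume u v := fun u v =>
    Continuous.intervalIntegrable (by fun_prop) u v
  have h1 := intervalIntegral.integral_eq_sub_of_hasDerivAt (a := Y) (b := Y + a + b)
    (fun y _ => hd y) (hI _ _)
  rw [h1]
  unfold gg
  ring

theorem thm : G_T3 := by
  intro ρ hρ hexp hmean Y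
  set c : ℝ := ∫ a, a ^ 2 ∂ρ with hc
  have hfun : FY (fun z => z ^ 2 - c) Y = gg c Y := funext fun p => FY_eq c Y p
  have hI : ∀ i j : ℕ, Integrable (fun p : ℝ × ℝ => p.1 ^ i * p.2 ^ j) (ρ.prod ρ) := fun i j =>
    (int_pow hexp i).mul_prod (int_pow hexp j)
  have hV : ∀ i j : ℕ, ∫ p : ℝ × ℝ, p.1 ^ i * p.2 ^ j ∂(ρ.prod ρ) =
      (∫ a, a ^ i ∂ρ) * ∫ a, a ^ j ∂ρ := fun i j =>
    integral_prod_mul (fun a : ℝ => a ^ i) fun a : ℝ => a ^ j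
  have hm0 : ∫ a, a ^ 0 ∂ρ = 1 := by simp
  have hm1 : ∫ a, a ^ 1 ∂ρ = 0 := by simpa using hmean
  rw [hfun]
  have hJ : ∀ (k : ℝ) (i j : ℕ),
      Integrable (fun p : ℝ × ℝ => k * (p.1 ^ i * p.2 ^ j)) (ρ.prod ρ) := fun k i j =>
    (hI i j).const_mul k
  have hW : ∀ (k : ℝ) (i j : ℕ), ∫ p : ℝ × ℝ, k * (p.1 ^ i * p.2 ^ j) ∂(ρ.prod ρ) =
      k * ((∫ a, a ^ i ∂ρ) * ∫ a, a ^ j ∂ρ) := fun k i j => by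
    rw [integral_const_mul, hV]
  have key : Integrable (gg c Y) (ρ.prod ρ) ∧ ∫ p, gg c Y p ∂(ρ.prod ρ) =
      (Y ^ 4 - 2 * c * Y ^ 2 + c ^ 2) * ((∫ a, a ^ 1 ∂ρ) * ∫ a, a ^ 0 ∂ρ) +
      (Y ^ 4 - 2 * c * Y ^ 2 + c ^ 2) * ((∫ a, a ^ 0 ∂ρ) * ∫ a, a ^ 1 ∂ρ) +
      (-(2 * c / 3)) * ((∫ a, a ^ 3 ∂ρ) * ∫ a, a ^ 0 ∂ρ) +
      (-(2 * c / 3)) * ((∫ a, a ^ 0 ∂ρ) * ∫ a, a ^ 3 ∂ρ) +
      (1 / 30) * ((∫ a, a ^ 5 ∂ρ) * ∫ a, a ^ 0 ∂ρ) +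
      (1 / 30) * ((∫ a, a ^ 0 ∂ρ) * ∫ a, a ^ 5 ∂ρ) +
      (2 * Y ^ 2) * ((∫ a, a ^ 1 ∂ρ) * ∫ a, a ^ 2 ∂ρ) +
      (2 * Y ^ 2) * ((∫ a, a ^ 2 ∂ρ) * ∫ a, a ^ 1 ∂ρ) +
      (-(1 / 6)) * ((∫ a, a ^ 1 ∂ρ) * ∫ a, a ^ 4 ∂ρ) +
      (-(1 / 6)) * ((∫ a, a ^ 4 ∂ρ) * ∫ a, a ^ 1 ∂ρ) +
      (1 / 3) * ((∫ a, a ^ 2 ∂ρ) * ∫ a, a ^ 3 ∂ρ) +
      (1 / 3) * ((∫ a, a ^ 3 ∂ρ) * ∫ a, a ^ 2 ∂ρ) := by
    have add : ∀ {f : ℝ × ℝ → ℝ} {v : ℝ}, (Integrable f (ρ.prod ρ) ∧ ∫ p, f p ∂(ρ.prod ρ) = v) →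
        ∀ (k : ℝ) (i j : ℕ), Integrable (fun p => f p + k * (p.1 ^ i * p.2 ^ j)) (ρ.prod ρ) ∧
          ∫ p, (f p + k * (p.1 ^ i * p.2 ^ j)) ∂(ρ.prod ρ) =
            v + k * ((∫ a, a ^ i ∂ρ) * ∫ a, a ^ j ∂ρ) := fun {f v} h k i j =>
      ⟨h.1.add (hJ k i j), by rw [integral_add h.1 (hJ k i j), h.2, hW]⟩
    have s1 := add (add (add (add (add (add (add (add (add (add (add
      ⟨hJ (Y ^ 4 - 2 * c * Y ^ 2 + c ^ 2) 1 0, hW (Y ^ 4 - 2 * c * Y ^ 2 + c ^ 2) 1 0⟩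
      (Y ^ 4 - 2 * c * Y ^ 2 + c ^ 2) 0 1) (-(2 * c / 3)) 3 0) (-(2 * c / 3)) 0 3)
      (1 / 30) 5 0) (1 / 30) 0 5) (2 * Y ^ 2) 1 2) (2 * Y ^ 2) 2 1) (-(1 / 6)) 1 4)
      (-(1 / 6)) 4 1) (1 / 3) 2 3) (1 / 3) 3 2
    exact s1
  refine ⟨key.1, ?_⟩
  rw [key.2, hm0, hm1]
  rw [← hc]
  ring

end EC237.PB.PkT3
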